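import Mathlib

/-!
# Completions of Gap Hamming Distance for n = O(k) have unbounded VC dimension
-/

set_option autoImplicit false

namespace Pool.Agent.MP8ab495.Margin

/-! ### Ramsey theorem: monochromatic transitive triangles -/

theorem tri_aux {E : Type} [DecidableEq E] (C : Finset E) :
    ∃ N : ℕ, ∀ (s : Finset ℕ) (c : ℕ → ℕ → E), N ≤ s.card →
      (∀ i ∈ s, ∀ j ∈ s, i < j → c i j ∈ C) →
      ∃ i ∈ s, ∃ j ∈ s, ∃ k ∈ s, i < j ∧ j < k ∧ c i j = c i k ∧ c i j = c j k := by
  classical
  induction C using Finset.strongInduction with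
  | H C ih =>
    have h1 : ∀ γ : E, ∃ M : ℕ, γ ∈ C → ∀ (s : Finset ℕ) (c : ℕ → ℕ → E), M ≤ s.card →
        (∀ i ∈ s, ∀ j ∈ s, i < j → c i j ∈ C.erase γ) →
        ∃ i ∈ s, ∃ j ∈ s, ∃ k ∈ s, i < j ∧ j < k ∧ c i j = c i k ∧ c i j = c j k := by
      intro γ
      by_cases hγ : γ ∈ C
      · obtain ⟨M, hM⟩ := ih (C.erase γ) (Finset.erase_ssubset hγ)
        exact ⟨M, fun _ => hM⟩
      · exact ⟨0, fun h => absurd h hγ⟩
    choose f hf using h1
    refine ⟨∑ γ ∈ C, f γ + 2, fun s c hs hc => ?_⟩
    have hne : s.Nonempty := by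
      rw [← Finset.card_pos]; omega
    set v := s.min' hne with hv
    have hvs : v ∈ s := Finset.min'_mem s hne
    have hlt : ∀ i ∈ s.erase v, v < i := by
      intro i hi
      have h2 := Finset.mem_erase.1 hi
      exact lt_of_le_of_ne (Finset.min'_le s i h2.2) (Ne.symm h2.1)
    have hcard : (s.erase v).card = s.card - 1 := Finset.card_erase_of_mem hvs
    have hmaps : ∀ i ∈ s.erase v, c v i ∈ C := fun i hi =>
      hc v hvs i (Finset.mem_of_mem_erase hi) (hlt i hi)
    have hsum := Finset.card_eq_sum_card_fiberwise (f := c v) (s := s.erase v) (t := C)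
      (fun i hi => hmaps i hi)
    have h3 : ∑ γ ∈ C, f γ < ∑ γ ∈ C, ((s.erase v).filter fun i => c v i = γ).card := by
      rw [← hsum, hcard]; omega
    obtain ⟨γ, hγ, h4⟩ := Finset.exists_lt_of_sum_lt h3
    set t := (s.erase v).filter fun i => c v i = γ with ht
    have hts : ∀ i ∈ t, i ∈ s ∧ v < i ∧ c v i = γ := by
      intro i hi
      have h5 := Finset.mem_filter.1 hi
      exact ⟨Finset.mem_of_mem_erase h5.1, hlt i h5.1, h5.2⟩
    by_cases hex : ∃ i ∈ t, ∃ j ∈ t, i < j ∧ c i j = γ
    · obtain ⟨i, hi, j, hj, hij, hcij⟩ := hex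
      exact ⟨v, hvs, i, (hts i hi).1, j, (hts j hj).1, (hts i hi).2.1, hij,
        by rw [(hts i hi).2.2, (hts j hj).2.2], by rw [(hts i hi).2.2, hcij]⟩
    · obtain ⟨i, hi, j, hj, k, hk, h⟩ := hf γ hγ t c h4.le (fun i hi j hj hij =>
        Finset.mem_erase.2 ⟨fun h => hex ⟨i, hi, j, hj, hij, h⟩,
          hc i (hts i hi).1 j (hts j hj).1 hij⟩)
      exact ⟨i, (hts i hi).1, j, (hts j hj).1, k, (hts k hk).1, h⟩

theorem tri (E : Type) [Finite E] :
    ∃ N : ℕ, ∀ c : ℕ → ℕ → E, ∃ i j k : ℕ, i < j ∧ j < k ∧ k < N ∧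
      c i j = c i k ∧ c i j = c j k := by
  classical
  have := Fintype.ofFinite E
  obtain ⟨N, hN⟩ := tri_aux (Finset.univ : Finset E)
  refine ⟨N, fun c => ?_⟩
  obtain ⟨i, _, j, _, k, hk, hij, hjk, h1, h2⟩ := hN (Finset.range N) c (by simp)
    (fun _ _ _ _ _ => Finset.mem_univ _)
  exact ⟨i, j, k, hij, hjk, Finset.mem_range.1 hk, h1, h2⟩

/-- The contents of a column: `mi` on `u`, `lo` elsewhere. -/
def colC {q : ℕ} (lo mi : Fin q → ℕ) (u : Fin q → Bool) : Fin q → ℕ :=
  fun l => if u l = true then mi l else lo l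

/-- Ramsey theorem for products. -/
theorem prodR (q : ℕ) : ∀ (E : Type) [Finite E], ∃ N : ℕ, ∀ G : (Fin q → ℕ) → (Fin q → ℕ) → E,
    ∃ lo mi hi : Fin q → ℕ, (∀ l, lo l < mi l ∧ mi l < hi l ∧ hi l < N) ∧
      ∀ u v w : Fin q → Bool, (∀ l, w l = (u l && v l)) →
        G (colC lo mi u) (colC hi mi v) = G (colC lo mi w) (colC hi mi w) := by
  induction q with
  | zero =>
    intro E _
    refine ⟨0, fun G => ⟨Fin.elim0, Fin.elim0, Fin.elim0, fun l => l.elim0, ?_⟩⟩
    intro u v w _
    have h1 : u = w := funext fun l => l.elim0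
    have h2 : v = w := funext fun l => l.elim0
    rw [h1, h2]
  | succ q ih =>
    intro E _
    obtain ⟨N', hN'⟩ := ih (E × E)
    obtain ⟨N'', hN''⟩ := tri ((Fin q → Fin N') → (Fin q → Fin N') → E)
    refine ⟨max N' N'', fun G => ?_⟩
    obtain ⟨i, j, k, hij, hjk, hk, h1, h2⟩ := hN'' fun i j a b =>
      G (Fin.cons i fun l => (a l : ℕ)) (Fin.cons j fun l => (b l : ℕ))
    obtain ⟨lo, mi, hi, hlt, hG⟩ := hN' fun a b =>
      (G (Fin.cons i a) (Fin.cons k b), G (Fin.cons j a) (Fin.cons j b))
    refine ⟨Fin.cons i lo, Fin.cons j mi, Fin.cons k hi, ?_, ?_⟩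
    · intro l
      refine Fin.cases ?_ (fun l => ?_) l
      · simp only [Fin.cons_zero]
        exact ⟨hij, hjk, lt_of_lt_of_le hk (le_max_right _ _)⟩
      · simp only [Fin.cons_succ]
        exact ⟨(hlt l).1, (hlt l).2.1, lt_of_lt_of_le (hlt l).2.2 (le_max_left _ _)⟩
    · -- splitting off the first coordinate
      have hcol : ∀ (x y : ℕ) (a b : Fin q → ℕ) (u : Fin (q + 1) → Bool),
          colC (Fin.cons x a : Fin (q + 1) → ℕ) (Fin.cons y b) u =
            Fin.cons (if u 0 = true then y else x) (colC a b fun l => u l.succ) := by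
        intro x y a b u
        funext l
        refine Fin.cases ?_ (fun l => ?_) l
        · simp [colC]
        · simp [colC]
      have hb1 : ∀ (u : Fin q → Bool) (l : Fin q), colC lo mi u l < N' := by
        intro u l
        have h := hlt l
        unfold colC
        split_ifs <;> omega
      have hb2 : ∀ (u : Fin q → Bool) (l : Fin q), colC hi mi u l < N' := by
        intro u l
        have h := hlt l
        unfold colC
        split_ifs <;> omega
      -- the three unequal states agree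
      have e1 : ∀ u v : Fin q → Bool,
          G (Fin.cons i (colC lo mi u)) (Fin.cons j (colC hi mi v)) =
            G (Fin.cons i (colC lo mi u)) (Fin.cons k (colC hi mi v)) := by
        intro u v
        exact congrFun (congrFun h1 fun l => ⟨colC lo mi u l, hb1 u l⟩)
          fun l => ⟨colC hi mi v l, hb2 v l⟩
      have e2 : ∀ u v : Fin q → Bool,
          G (Fin.cons j (colC lo mi u)) (Fin.cons k (colC hi mi v)) =
            G (Fin.cons i (colC lo mi u)) (Fin.cons k (colC hi mi v)) := by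
        intro u v
        rw [← e1 u v]
        exact (congrFun (congrFun h2 fun l => ⟨colC lo mi u l, hb1 u l⟩)
          fun l => ⟨colC hi mi v l, hb2 v l⟩).symm
      intro u v w hw
      rw [hcol, hcol, hcol, hcol]
      have hw0 := hw 0
      have hGs := hG (fun l => u l.succ) (fun l => v l.succ) (fun l => w l.succ)
        (fun l => hw l.succ)
      have hG1 := congrArg Prod.fst hGs
      have hG2 := congrArg Prod.snd hGs
      simp only at hG1 hG2
      rcases Bool.eq_false_or_eq_true (u 0) with hu | hu <;>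
        rcases Bool.eq_false_or_eq_true (v 0) with hv | hv <;>
        rw [hu, hv] at hw0 <;> simp only [Bool.and_self, Bool.and_false, Bool.and_true] at hw0 <;>
        rw [hu, hv, hw0] <;>
        simp only [if_true, if_false, Bool.false_eq_true]
      · exact hG2
      · rw [e2]; exact hG1
      · rw [e1]; exact hG1
      · exact hG1

/-! ### Completions and shattered sets -/

/-- `S` is a set of columns shattered by the rows of `A`. -/
def Shat {α : Type} (A : (α → Bool) → (α → Bool) → Bool) (S : Finset (α → Bool)) : Prop :=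
  ∀ T ⊆ S, ∃ x : α → Bool, ∀ y ∈ S, (A x y = true ↔ y ∈ T)

/-- Every completion of the Gap Hamming Distance matrix with parameter `k` on the cube
`{0,1}^α` has a shattered set of `d + 1` columns. -/
def Bad (α : Type) [Fintype α] (k d : ℕ) : Prop :=
  ∀ A : (α → Bool) → (α → Bool) → Bool,
    (∀ x y : α → Bool, hammingDist x y ≤ k → A x y = true) →
    (∀ x y : α → Bool, Fintype.card α - k ≤ hammingDist x y → A x y = false) →
    ∃ S : Finset (α → Bool), d + 1 ≤ S.card ∧ Shat A S

/-- Transfer along maps of cubes. -/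
theorem Bad.transfer {α β : Type} [Fintype α] [Fintype β] {k k' d : ℕ} (h : Bad β k' d)
    (φ : (β → Bool) → (α → Bool)) (hinj : Function.Injective φ)
    (h1 : ∀ x y : β → Bool, hammingDist x y ≤ k' → hammingDist (φ x) (φ y) ≤ k)
    (h2 : ∀ x y : β → Bool, Fintype.card β - k' ≤ hammingDist x y →
      Fintype.card α - k ≤ hammingDist (φ x) (φ y)) : Bad α k d := by
  classical
  intro A hA1 hA2
  obtain ⟨S, hS, hsh⟩ := h (fun x y => A (φ x) (φ y)) (fun x y hxy => hA1 _ _ (h1 x y hxy))
    (fun x y hxy => hA2 _ _ (h2 x y hxy))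
  refine ⟨S.image φ, by rwa [Finset.card_image_of_injective _ hinj], ?_⟩
  intro T hT
  obtain ⟨x, hx⟩ := hsh (S.filter fun y => φ y ∈ T) (Finset.filter_subset _ _)
  refine ⟨φ x, ?_⟩
  intro y hy
  obtain ⟨z, hz, rfl⟩ := Finset.mem_image.1 hy
  rw [hx z hz, Finset.mem_filter]
  exact ⟨fun h => h.2, fun h => ⟨hz, h⟩⟩

/-- Repetition of the coordinates. -/
theorem Bad.blow {α β : Type} [Fintype α] [Fintype β] {k k' d t : ℕ} (h : Bad β k' d)
    (ht : 1 ≤ t) (e : Fin t × β ↪ α)
    (hk : t * k' + (Fintype.card α - t * Fintype.card β) ≤ k) : Bad α k d := by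
  classical
  let φ : (β → Bool) → (α → Bool) := fun x a =>
    if h : ∃ p : Fin t × β, e p = a then x h.choose.2 else false
  have hφ : ∀ (x : β → Bool) (p : Fin t × β), φ x (e p) = x p.2 := by
    intro x p
    have hex : ∃ p' : Fin t × β, e p' = e p := ⟨p, rfl⟩
    have h1 : hex.choose = p := e.injective hex.choose_spec
    simp only [φ]
    rw [dif_pos hex, h1]
  have hφ0 : ∀ (x : β → Bool) (a : α), (¬ ∃ p : Fin t × β, e p = a) → φ x a = false := by
    intro x a ha
    simp only [φ]
    rw [dif_neg ha]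
  have hdist : ∀ x y : β → Bool, hammingDist (φ x) (φ y) = t * hammingDist x y := by
    intro x y
    unfold hammingDist
    have h1 : (Finset.univ.filter fun a => φ x a ≠ φ y a) =
        ((Finset.univ : Finset (Fin t)) ×ˢ (Finset.univ.filter fun b => x b ≠ y b)).map e := by
      ext a
      simp only [Finset.mem_filter, Finset.mem_univ, true_and, Finset.mem_map,
        Finset.mem_product]
      constructor
      · intro ha
        by_cases hex : ∃ p : Fin t × β, e p = a
        · obtain ⟨p, rfl⟩ := hex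
          rw [hφ, hφ] at ha
          exact ⟨p, ha, rfl⟩
        · rw [hφ0 x a hex, hφ0 y a hex] at ha
          exact absurd rfl ha
      · rintro ⟨p, hp, rfl⟩
        rw [hφ, hφ]
        exact hp
    rw [h1, Finset.card_map, Finset.card_product, Finset.card_univ, Fintype.card_fin]
  have hcard : t * Fintype.card β ≤ Fintype.card α := by
    have := Fintype.card_le_of_injective e e.injective
    rwa [Fintype.card_prod, Fintype.card_fin] at this
  refine h.transfer φ ?_ ?_ ?_
  · intro x y hxy
    funext b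
    have h1 := congrFun hxy (e (⟨0, ht⟩, b))
    rwa [hφ, hφ] at h1
  · intro x y hxy
    rw [hdist]
    calc t * hammingDist x y ≤ t * k' := Nat.mul_le_mul_left _ hxy
      _ ≤ k := by omega
  · intro x y hxy
    rw [hdist]
    have h1 : t * (Fintype.card β - k') ≤ t * hammingDist x y := Nat.mul_le_mul_left _ hxy
    rw [Nat.mul_sub] at h1
    omega

/-- For `n ≤ 2 k` there is no completion at all. -/
theorem bad_base (α : Type) [Fintype α] (k d : ℕ) (h : Fintype.card α ≤ 2 * k) :
    Bad α k d := by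
  classical
  intro A hA1 hA2
  exfalso
  obtain ⟨s, _, hs⟩ := Finset.exists_subset_card_eq (s := (Finset.univ : Finset α))
    (n := min k (Fintype.card α)) (by rw [Finset.card_univ]; exact min_le_right _ _)
  have hd : hammingDist (fun _ => false : α → Bool) (fun a => decide (a ∈ s)) = s.card := by
    unfold hammingDist
    congr 1
    ext a
    simp
  have h1 := hA1 (fun _ => false) (fun a => decide (a ∈ s)) (by rw [hd, hs]; exact min_le_left _ _)
  have h2 := hA2 (fun _ => false) (fun a => decide (a ∈ s)) (by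
    rw [hd, hs]
    rcases le_total k (Fintype.card α) with h' | h'
    · rw [min_eq_left h']; omega
    · rw [min_eq_right h']; omega)
  rw [h1] at h2
  exact absurd h2 (by decide)

/-! ### Slots -/

/-- The vector with contents `a` and signs `ε`: the block of coordinates number `l` is indexed by
`Fin N → Bool`, and on it the vector is the coordinate function number `a l`, complemented if
`ε l` is `true`. -/
def vec {q : ℕ} (N : ℕ) (a : Fin q → ℕ) (ε : Fin q → Bool) : Fin q × (Fin N → Bool) → Bool :=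
  fun p => xor (ε p.1) (if h : a p.1 < N then p.2 ⟨a p.1, h⟩ else false)

theorem xor_rc (a b c : Bool) (h : xor a c = xor b c) : a = b := by
  revert h; cases a <;> cases b <;> cases c <;> decide

theorem xor_lc (a b c : Bool) (h : xor a b = xor a c) : b = c := by
  revert h; cases a <;> cases b <;> cases c <;> decide

theorem slot_card {N : ℕ} (hN : 1 ≤ N) (i j : Fin N) (hij : i ≠ j) (e e' : Bool) :
    (Finset.univ.filter fun t : Fin N → Bool => xor e (t i) ≠ xor e' (t j)).card =
      2 ^ (N - 1) := by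
  classical
  have h1 : (Finset.univ.filter fun t : Fin N → Bool => xor e (t i) ≠ xor e' (t j)).card =
      (Finset.univ.filter fun t : Fin N → Bool => ¬ (xor e (t i) ≠ xor e' (t j))).card := by
    refine Finset.card_bij' (fun t _ => Function.update t i (!t i))
      (fun t _ => Function.update t i (!t i)) ?_ ?_ ?_ ?_
    · intro t ht
      simp only [Finset.mem_filter, Finset.mem_univ, true_and] at ht ⊢
      rw [Function.update_self, Function.update_of_ne hij.symm]
      revert ht
      cases e <;> cases e' <;> cases t i <;> cases t j <;> decide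
    · intro t ht
      simp only [Finset.mem_filter, Finset.mem_univ, true_and] at ht ⊢
      rw [Function.update_self, Function.update_of_ne hij.symm]
      revert ht
      cases e <;> cases e' <;> cases t i <;> cases t j <;> decide
    · intro t _
      simp
    · intro t _
      simp
  have h2 := Finset.card_filter_add_card_filter_not (s := (Finset.univ : Finset (Fin N → Bool)))
    (fun t : Fin N → Bool => xor e (t i) ≠ xor e' (t j))
  rw [← h1, Finset.card_univ, Fintype.card_fun, Fintype.card_bool, Fintype.card_fin] at h2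
  obtain ⟨M, rfl⟩ : ∃ M, N = M + 1 := ⟨N - 1, by omega⟩
  rw [pow_succ] at h2
  rw [Nat.add_sub_cancel]
  omega

theorem dist_vec {q N : ℕ} (hN : 1 ≤ N) (a b : Fin q → ℕ) (ha : ∀ l, a l < N)
    (hb : ∀ l, b l < N) (ε η : Fin q → Bool) :
    hammingDist (vec N a ε) (vec N b η) =
      ∑ l, (if a l = b l then (if ε l = η l then 0 else 2 * 2 ^ (N - 1)) else 2 ^ (N - 1)) := by
  classical
  have h0 : 2 * 2 ^ (N - 1) = 2 ^ N := by
    obtain ⟨M, rfl⟩ : ∃ M, N = M + 1 := ⟨N - 1, by omega⟩
    rw [Nat.add_sub_cancel, pow_succ]; ring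
  have h1 : hammingDist (vec N a ε) (vec N b η) =
      ∑ l, (Finset.univ.filter fun t : Fin N → Bool =>
        xor (ε l) (t ⟨a l, ha l⟩) ≠ xor (η l) (t ⟨b l, hb l⟩)).card := by
    unfold hammingDist
    rw [Finset.card_filter, Fintype.sum_prod_type]
    refine Finset.sum_congr rfl fun l _ => ?_
    rw [Finset.card_filter]
    refine Finset.sum_congr rfl fun t _ => ?_
    simp only [vec, dif_pos (ha l), dif_pos (hb l)]
  rw [h1]
  refine Finset.sum_congr rfl fun l _ => ?_
  by_cases hab : a l = b l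
  · rw [if_pos hab]
    have h2 : (⟨b l, hb l⟩ : Fin N) = ⟨a l, ha l⟩ := Fin.ext hab.symm
    rw [h2]
    by_cases he : ε l = η l
    · rw [if_pos he, he]
      simp
    · rw [if_neg he, h0]
      have h3 : (Finset.univ.filter fun t : Fin N → Bool =>
          xor (ε l) (t ⟨a l, ha l⟩) ≠ xor (η l) (t ⟨a l, ha l⟩)) = Finset.univ := by
        ext t
        simp only [Finset.mem_filter, Finset.mem_univ, true_and, iff_true]
        intro h4
        exact he (xor_rc _ _ _ h4)
      rw [h3, Finset.card_univ, Fintype.card_fun, Fintype.card_bool, Fintype.card_fin]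
  · rw [if_neg hab]
    exact slot_card hN _ _ (fun h => hab (congrArg Fin.val h)) _ _

/-- The characteristic function of a set of slots. -/
def ind {q : ℕ} (W : Finset (Fin q)) : Fin q → Bool := fun l => decide (l ∈ W)

/-- The main step: `(k, q)` bad implies `(2 ^ (N - 1) * (k + d), 2 ^ N * q)` bad. -/
theorem Bad.slot {q k d : ℕ} (h : Bad (Fin q) k d) :
    ∃ N : ℕ, 1 ≤ N ∧ Bad (Fin q × (Fin N → Bool)) (2 ^ (N - 1) * (k + d)) d := by
  classical
  obtain ⟨N0, hN0⟩ := prodR q ((Fin q → Bool) → (Fin q → Bool) → Bool)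
  refine ⟨N0 + 1, by omega, ?_⟩
  intro A hA1 hA2
  by_contra hno
  have hno' : ∀ S : Finset (Fin q × (Fin (N0 + 1) → Bool) → Bool), d + 1 ≤ S.card →
      ¬ Shat A S := fun S hS hsh => hno ⟨S, hS, hsh⟩
  obtain ⟨lo, mi, hi, hlt, hG⟩ := hN0 fun a b η ε => A (vec (N0 + 1) b ε) (vec (N0 + 1) a η)
  have hclo : ∀ (u : Fin q → Bool) (l : Fin q), colC lo mi u l < N0 + 1 := by
    intro u l
    have h := hlt l
    unfold colC
    split_ifs <;> omega
  have hchi : ∀ (u : Fin q → Bool) (l : Fin q), colC hi mi u l < N0 + 1 := by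
    intro u l
    have h := hlt l
    unfold colC
    split_ifs <;> omega
  have key : ∀ (u v w : Fin q → Bool) (ε η : Fin q → Bool), (∀ l, w l = (u l && v l)) →
      A (vec (N0 + 1) (colC hi mi v) ε) (vec (N0 + 1) (colC lo mi u) η) =
        A (vec (N0 + 1) (colC hi mi w) ε) (vec (N0 + 1) (colC lo mi w) η) := by
    intro u v w ε η hw
    exact congrFun (congrFun (hG u v w hw) η) ε
  -- the distance of the vectors
  have hdist : ∀ (W : Finset (Fin q)) (ε η : Fin q → Bool),
      hammingDist (vec (N0 + 1) (colC hi mi (ind W)) ε) (vec (N0 + 1) (colC lo mi (ind W)) η) =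
      ∑ l, (if l ∈ W then (if ε l = η l then 0 else 2 * 2 ^ N0) else 2 ^ N0) := by
    intro W ε η
    rw [dist_vec (by omega) _ _ (hchi _) (hclo _)]
    refine Finset.sum_congr rfl fun l _ => ?_
    have h1 := hlt l
    by_cases hl : l ∈ W
    · rw [if_pos hl, if_pos (by simp [colC, ind, hl]), Nat.add_sub_cancel]
    · rw [if_neg hl, if_neg (by simp [colC, ind, hl]; omega), Nat.add_sub_cancel]
  -- conversion
  have conv : ∀ (ε η : Fin q → Bool) (D : Finset (Fin q)), ∃ W ⊆ D, (D \ W).card ≤ d ∧
      A (vec (N0 + 1) (colC hi mi (ind W)) ε) (vec (N0 + 1) (colC lo mi (ind W)) η) =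
      A (vec (N0 + 1) (colC hi mi (ind ∅)) ε) (vec (N0 + 1) (colC lo mi (ind ∅)) η) := by
    intro ε η D
    set Φ : Finset (Fin q) → Bool := fun W =>
      A (vec (N0 + 1) (colC hi mi (ind W)) ε) (vec (N0 + 1) (colC lo mi (ind W)) η) with hΦ
    change ∃ W ⊆ D, (D \ W).card ≤ d ∧ Φ W = Φ ∅
    obtain ⟨W, hW, hmax⟩ := Finset.exists_max_image
      (D.powerset.filter fun W => Φ W = Φ ∅) Finset.card
      ⟨∅, by rw [Finset.mem_filter]; exact ⟨Finset.empty_mem_powerset _, rfl⟩⟩
    rw [Finset.mem_filter, Finset.mem_powerset] at hW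
    refine ⟨W, hW.1, ?_, hW.2⟩
    by_contra hcard
    push Not at hcard
    have hflip : ∀ l ∈ D \ W, Φ (insert l W) ≠ Φ ∅ := by
      intro l hl hc
      rw [Finset.mem_sdiff] at hl
      have h1 := hmax (insert l W) (by
        rw [Finset.mem_filter, Finset.mem_powerset]
        exact ⟨Finset.insert_subset hl.1 hW.1, hc⟩)
      rw [Finset.card_insert_of_notMem hl.2] at h1
      omega
    set y : Fin q → (Fin q × (Fin (N0 + 1) → Bool) → Bool) := fun l =>
      vec (N0 + 1) (colC lo mi (ind (insert l W))) η with hy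
    have hyinj : ∀ l ∈ D \ W, ∀ l' ∈ D \ W, y l = y l' → l = l' := by
      intro l hl l' _ hll
      by_contra hne
      rw [Finset.mem_sdiff] at hl
      have h1 := congrFun hll (l, fun s => decide ((s : ℕ) = mi l))
      have h2 : colC lo mi (ind (insert l W)) l = mi l := by simp [colC, ind]
      have h3 : colC lo mi (ind (insert l' W)) l = lo l := by
        simp [colC, ind, hne, hl.2]
      have h4 := hlt l
      simp only [hy, vec] at h1
      rw [dif_pos (by rw [h2]; omega), dif_pos (by rw [h3]; omega)] at h1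
      have h5 := xor_lc _ _ _ h1
      simp only [h2, h3] at h5
      rw [decide_eq_decide] at h5
      have h6 := h5.1 trivial
      omega
    refine hno' ((D \ W).image y) ?_ ?_
    · rw [Finset.card_image_of_injOn (fun l hl l' hl' h => hyinj l hl l' hl' h)]
      omega
    · intro T _
      set σ : Finset (Fin q) := (D \ W).filter fun l => ¬ (Φ ∅ = true ↔ y l ∈ T) with hσ
      refine ⟨vec (N0 + 1) (colC hi mi (ind (W ∪ σ))) ε, ?_⟩
      intro z hz
      obtain ⟨l, hl, rfl⟩ := Finset.mem_image.1 hz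
      have hlW : l ∉ W := (Finset.mem_sdiff.1 hl).2
      by_cases hlσ : l ∈ σ
      · have h1 : A (vec (N0 + 1) (colC hi mi (ind (W ∪ σ))) ε) (y l) = Φ (insert l W) := by
          refine key _ _ _ _ _ fun m => ?_
          simp only [ind]
          by_cases hm : m = l
          · subst hm; simp [hlσ]
          · by_cases hmW : m ∈ W <;> simp [hm, hmW]
        rw [h1]
        have h2 := hflip l hl
        have h3 := (Finset.mem_filter.1 hlσ).2
        cases h4 : Φ (insert l W) <;> cases h5 : Φ ∅ <;> simp_all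
      · have h1 : A (vec (N0 + 1) (colC hi mi (ind (W ∪ σ))) ε) (y l) = Φ W := by
          refine key _ _ _ _ _ fun m => ?_
          simp only [ind]
          by_cases hm : m = l
          · subst hm; simp [hlσ, hlW]
          · by_cases hmW : m ∈ W <;> simp [hm, hmW]
        rw [h1, hW.2]
        by_contra h3
        exact hlσ (Finset.mem_filter.2 ⟨hl, h3⟩)
  -- the matrix on the small cube
  have hB1 : ∀ ε η : Fin q → Bool, hammingDist ε η ≤ k →
      A (vec (N0 + 1) (colC hi mi (ind ∅)) ε) (vec (N0 + 1) (colC lo mi (ind ∅)) η) = true := by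
    intro ε η hεη
    obtain ⟨W, hWD, hWd, hW⟩ := conv ε η (Finset.univ.filter fun l => ε l = η l)
    rw [← hW]
    apply hA1
    rw [hdist]
    have h1 : ∑ l, (if l ∈ W then (if ε l = η l then 0 else 2 * 2 ^ N0) else 2 ^ N0) =
        ∑ l, (if l ∈ Wᶜ then 2 ^ N0 else 0) := by
      refine Finset.sum_congr rfl fun l _ => ?_
      by_cases hl : l ∈ W
      · rw [if_pos hl, if_pos (Finset.mem_filter.1 (hWD hl)).2, if_neg (by simp [hl])]
      · rw [if_neg hl, if_pos (by simp [hl])]
    rw [h1, ← Finset.sum_filter, Finset.sum_const, smul_eq_mul, Finset.filter_mem_eq_inter,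
      Finset.univ_inter, mul_comm, Nat.add_sub_cancel]
    refine Nat.mul_le_mul_left _ ?_
    have h2 : Wᶜ ⊆ (Finset.univ.filter fun l => ε l ≠ η l) ∪
        ((Finset.univ.filter fun l => ε l = η l) \ W) := by
      intro l hl
      rw [Finset.mem_compl] at hl
      rw [Finset.mem_union, Finset.mem_sdiff, Finset.mem_filter, Finset.mem_filter]
      by_cases he : ε l = η l
      · exact Or.inr ⟨⟨Finset.mem_univ _, he⟩, hl⟩
      · exact Or.inl ⟨Finset.mem_univ _, he⟩
    calc Wᶜ.card ≤ _ := Finset.card_le_card h2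
      _ ≤ _ := Finset.card_union_le _ _
      _ ≤ k + d := Nat.add_le_add hεη hWd
  have hB2 : ∀ ε η : Fin q → Bool, Fintype.card (Fin q) - k ≤ hammingDist ε η →
      A (vec (N0 + 1) (colC hi mi (ind ∅)) ε) (vec (N0 + 1) (colC lo mi (ind ∅)) η) = false := by
    intro ε η hεη
    rw [Fintype.card_fin] at hεη
    obtain ⟨W, hWD, hWd, hW⟩ := conv ε η (Finset.univ.filter fun l => ε l ≠ η l)
    rw [← hW]
    apply hA2
    rw [hdist]
    have h1 : ∑ l, (if l ∈ W then (if ε l = η l then 0 else 2 * 2 ^ N0) else 2 ^ N0) =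
        ∑ l, ((if l ∈ W then 2 ^ N0 else 0) + 2 ^ N0) := by
      refine Finset.sum_congr rfl fun l _ => ?_
      by_cases hl : l ∈ W
      · rw [if_pos hl, if_neg (Finset.mem_filter.1 (hWD hl)).2, if_pos hl]; ring
      · rw [if_neg hl, if_neg hl, zero_add]
    rw [h1, Finset.sum_add_distrib, ← Finset.sum_filter, Finset.sum_const, Finset.sum_const,
      smul_eq_mul, smul_eq_mul, Finset.filter_mem_eq_inter, Finset.univ_inter, Finset.card_univ,
      Fintype.card_fin, Nat.add_sub_cancel, Fintype.card_prod, Fintype.card_fin,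
      Fintype.card_fun, Fintype.card_bool, Fintype.card_fin]
    have h2 : q ≤ W.card + k + d := by
      have h3 : (Finset.univ.filter fun l => ε l ≠ η l).card ≤ W.card + d := by
        have h4 := Finset.card_sdiff_add_card_eq_card hWD
        omega
      have h5 : hammingDist ε η = (Finset.univ.filter fun l => ε l ≠ η l).card := rfl
      omega
    have h6 : 2 ^ N0 * q ≤ 2 ^ N0 * (W.card + k + d) := Nat.mul_le_mul_left _ h2
    have h7 : q * 2 ^ (N0 + 1) = 2 ^ N0 * q + q * 2 ^ N0 := by ring
    have h8 : 2 ^ N0 * (W.card + k + d) = W.card * 2 ^ N0 + 2 ^ N0 * (k + d) := by ring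
    omega
  obtain ⟨S, hS, hsh⟩ := h _ hB1 hB2
  have hinj : Function.Injective fun η : Fin q → Bool =>
      vec (N0 + 1) (colC lo mi (ind ∅)) η := by
    intro η η' hηη
    funext l
    have h1 := congrFun hηη (l, fun _ => false)
    simp only [vec] at h1
    rw [dif_pos (hclo _ _)] at h1
    simpa using h1
  refine hno' (S.image fun η => vec (N0 + 1) (colC lo mi (ind ∅)) η) (by
    rwa [Finset.card_image_of_injective _ hinj]) ?_
  intro T _
  obtain ⟨x, hx⟩ := hsh (S.filter fun η => vec (N0 + 1) (colC lo mi (ind ∅)) η ∈ T)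
    (Finset.filter_subset _ _)
  refine ⟨vec (N0 + 1) (colC hi mi (ind ∅)) x, ?_⟩
  intro y hy
  obtain ⟨z, hz, rfl⟩ := Finset.mem_image.1 hy
  rw [hx z hz, Finset.mem_filter]
  exact ⟨fun h => h.2, fun h => ⟨hz, h⟩⟩

/-! ### Iteration -/

theorem Bad.equiv {α β : Type} [Fintype α] [Fintype β] {k d : ℕ} (h : Bad β k d) (e : β ≃ α) :
    Bad α k d := by
  refine h.blow (t := 1) le_rfl ((Equiv.uniqueProd β (Fin 1)).trans e).toEmbedding ?_
  rw [one_mul, one_mul, Fintype.card_congr e]
  omega

/-- The ratio `k / n` can be made small. -/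
theorem exists_bad (d : ℕ) : ∀ j : ℕ, ∃ q k : ℕ, 1 ≤ k ∧ Bad (Fin q) k d ∧
    k * 4 ^ j ≤ q * 3 ^ j := by
  intro j
  induction j with
  | zero => exact ⟨2, 1, le_rfl, bad_base _ _ _ (by simp), by norm_num⟩
  | succ j ih =>
    obtain ⟨q, k, hk, hbad, hr⟩ := ih
    set t := 2 * d + 1 with ht
    have h1 : Bad (Fin (t * q)) (t * k) d := by
      refine hbad.blow (t := t) (by omega) finProdFinEquiv.toEmbedding ?_
      simp only [Fintype.card_fin]
      omega
    obtain ⟨N, hN, h2⟩ := h1.slot
    have h3 := h2.equiv (Fintype.equivFin _)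
    refine ⟨_, _, ?_, h3, ?_⟩
    · exact Nat.mul_pos (by positivity) (by
        have : 0 < t * k := Nat.mul_pos (by omega) hk
        omega)
    · rw [Fintype.card_prod, Fintype.card_fin, Fintype.card_fun, Fintype.card_bool,
        Fintype.card_fin]
      obtain ⟨M, rfl⟩ : ∃ M, N = M + 1 := ⟨N - 1, by omega⟩
      rw [Nat.add_sub_cancel]
      have h4 : 2 * d ≤ t * k := by
        calc 2 * d ≤ t := by omega
          _ = t * 1 := (mul_one t).symm
          _ ≤ t * k := Nat.mul_le_mul_left _ hk
      have h5 : 2 * (t * k + d) ≤ 3 * (t * k) := by omega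
      calc 2 ^ M * (t * k + d) * 4 ^ (j + 1)
          = 2 ^ (M + 1) * (2 * (t * k + d)) * 4 ^ j := by ring
        _ ≤ 2 ^ (M + 1) * (3 * (t * k)) * 4 ^ j :=
            Nat.mul_le_mul_right _ (Nat.mul_le_mul_left _ h5)
        _ = 2 ^ (M + 1) * 3 * t * (k * 4 ^ j) := by ring
        _ ≤ 2 ^ (M + 1) * 3 * t * (q * 3 ^ j) := Nat.mul_le_mul_left _ hr
        _ = t * q * 2 ^ (M + 1) * 3 ^ (j + 1) := by ring

theorem exists_bad' (d C : ℕ) : ∃ q k : ℕ, 1 ≤ q ∧ Bad (Fin q) k d ∧ k * C ≤ q := by
  obtain ⟨j, hj⟩ : ∃ j : ℕ, C * 3 ^ j ≤ 4 ^ j := by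
    have h1 : Filter.Tendsto (fun j : ℕ => ((4 : ℝ) / 3) ^ j) Filter.atTop Filter.atTop :=
      tendsto_pow_atTop_atTop_of_one_lt (by norm_num)
    obtain ⟨j, hj⟩ := (h1.eventually (Filter.eventually_ge_atTop (C : ℝ))).exists
    refine ⟨j, ?_⟩
    rw [div_pow, le_div_iff₀ (by positivity)] at hj
    exact_mod_cast hj
  obtain ⟨q, k, hk, hbad, hr⟩ := exists_bad d j
  have h1 : k * C * 3 ^ j ≤ q * 3 ^ j := by
    calc k * C * 3 ^ j = k * (C * 3 ^ j) := by ring
      _ ≤ k * 4 ^ j := Nat.mul_le_mul_left _ hj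
      _ ≤ q * 3 ^ j := hr
  have h2 : k * C ≤ q := Nat.le_of_mul_le_mul_right h1 (by positivity)
  refine ⟨q, k, ?_, hbad, h2⟩
  by_contra h0
  have h3 : q = 0 := by omega
  subst h3
  rw [Nat.zero_mul] at hr
  have h4 : 0 < k * 4 ^ j := Nat.mul_pos hk (by positivity)
  omega

/-- For every `C` and `d` and large `k`, every completion of `GHD_k^n` with `n ≤ C k` has VC
dimension greater than `d`. -/
theorem large (d C : ℕ) : ∃ K : ℕ, ∀ k n : ℕ, K ≤ k → n ≤ C * k → Bad (Fin n) k d := by
  obtain ⟨q, k', hq, hbad, hr⟩ := exists_bad' d (2 * C)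
  refine ⟨2 * q, fun k n hk hn => ?_⟩
  rcases Nat.lt_or_ge n (2 * k) with hlt | hge
  · exact bad_base _ _ _ (by rw [Fintype.card_fin]; omega)
  have hdm := Nat.div_add_mod n q
  have hmod := Nat.mod_lt n hq
  set t := n / q with ht
  have ht1 : 1 ≤ t := by
    rw [ht, Nat.one_le_div_iff hq]; omega
  refine hbad.blow (t := t) ht1
    (finProdFinEquiv.toEmbedding.trans (Fin.castLEEmb (by rw [mul_comm]; omega))) ?_
  rw [Fintype.card_fin, Fintype.card_fin]
  have h1 : t * k' ≤ k / 2 := by
    rw [Nat.le_div_iff_mul_le (by norm_num)]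
    rcases Nat.eq_zero_or_pos C with hC | hC
    · subst hC
      omega
    · refine Nat.le_of_mul_le_mul_right (c := C) ?_ hC
      calc t * k' * 2 * C = t * (k' * (2 * C)) := by ring
        _ ≤ t * q := Nat.mul_le_mul_left _ hr
        _ ≤ n := by rw [mul_comm]; omega
        _ ≤ C * k := hn
        _ = k * C := mul_comm _ _
  have h2 : n - t * q < q := by rw [mul_comm t q]; omega
  omega

/-- **Theorem.**  There is a function `g` tending to infinity such that for all `k, n` with
`2 k < n ≤ g(k) k` every total completion of `GHD_k^n` has VC dimension at least `g(k)`. -/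
theorem main : ∃ g : ℕ → ℕ, Filter.Tendsto g Filter.atTop Filter.atTop ∧
    ∀ k n : ℕ, 2 * k < n → n ≤ g k * k →
      ∀ A : (Fin n → Bool) → (Fin n → Bool) → Bool,
        (∀ x y : Fin n → Bool, hammingDist x y ≤ k → A x y = true) →
        (∀ x y : Fin n → Bool, n - k ≤ hammingDist x y → A x y = false) →
        ∃ S : Finset (Fin n → Bool), g k ≤ S.card ∧
          ∀ T ⊆ S, ∃ x : Fin n → Bool, ∀ y ∈ S, (A x y = true ↔ y ∈ T) := by
  classical
  let P : ℕ → ℕ → Prop := fun k d => ∀ n : ℕ, n ≤ d * k → Bad (Fin n) k (d - 1) ∨ d = 0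
  let g : ℕ → ℕ := fun k => Nat.findGreatest (P k) k
  have hP0 : ∀ k, P k 0 := fun k n _ => Or.inr rfl
  have hPg : ∀ k, P k (g k) := fun k => Nat.findGreatest_spec (Nat.zero_le k) (hP0 k)
  refine ⟨g, ?_, ?_⟩
  · rw [Filter.tendsto_atTop]
    intro d
    obtain ⟨K, hK⟩ := large (d - 1) d
    filter_upwards [Filter.eventually_ge_atTop (max K d)] with k hk
    refine Nat.le_findGreatest (le_trans (le_max_right _ _) hk) ?_
    intro n hn
    exact Or.inl (hK k n (le_trans (le_max_left _ _) hk) hn)
  · intro k n _ hn A hA1 hA2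
    rcases hPg k n hn with h | h
    · obtain ⟨S, hS, hsh⟩ := h A hA1 (by rw [Fintype.card_fin]; exact hA2)
      exact ⟨S, by omega, hsh⟩
    · refine ⟨∅, by rw [h]; exact Nat.zero_le _, ?_⟩
      intro T _
      exact ⟨fun _ => false, fun y hy => absurd hy (Finset.notMem_empty y)⟩

end Pool.Agent.MP8ab495.Margin
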